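import Pool.Agent.Lib.MP_0b6b0e_gt.ZB.Defs

set_option autoImplicit false

open Set Filter Topology MeasureTheory

open scoped InnerProductSpace

namespace Pool.Agent.Lib.MP_0b6b0e_gt.ZB.H14

section

variable {E : Type*} [NormedAddCommGroup E] [InnerProductSpace ℝ E]

/-- A subgradient is close to the slope of an approximate linear majorant. -/
lemma core (P : E → ℝ) (A B : E →L[ℝ] ℝ) (y : E) (hsub : ∀ z, A z ≤ P z) (hy : A y = P y)
    (R ε : ℝ) (hR : 0 < R) (h : ∀ k : E, ‖k‖ ≤ R → P (y + k) - P y ≤ B k + ε) :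
    ‖A - B‖ ≤ ε / R := by
  have key : ∀ k : E, ‖k‖ ≤ R → (A - B) k ≤ ε := by
    intro k hk
    have h1 := h k hk
    have h2 := hsub (y + k)
    rw [map_add, hy] at h2
    rw [sub_apply]
    linarith
  have hε : 0 ≤ ε := by
    have := key 0 (by simp; exact hR.le)
    simpa using this
  refine ContinuousLinearMap.opNorm_le_bound _ (by positivity) ?_
  intro u
  by_cases hu : u = 0
  · simp [hu]
  have hu' : 0 < ‖u‖ := norm_pos_iff.mpr hu
  have hn : ‖(R / ‖u‖) • u‖ ≤ R := by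
    rw [norm_smul, Real.norm_eq_abs, abs_of_pos (by positivity)]
    rw [div_mul_cancel₀ _ hu'.ne']
  have k1 := key ((R / ‖u‖) • u) hn
  have k2 := key (-((R / ‖u‖) • u)) (by rw [norm_neg]; exact hn)
  rw [map_neg] at k2
  rw [map_smul, smul_eq_mul] at k1 k2
  rw [Real.norm_eq_abs, abs_le]
  have e1 : (A - B) u = (‖u‖ / R) * (R / ‖u‖ * (A - B) u) := by
    field_simp
  have hq : 0 < ‖u‖ / R := by positivity
  constructor
  · rw [e1]
    have : ‖u‖ / R * (-ε) ≤ ‖u‖ / R * (R / ‖u‖ * (A - B) u) :=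
      mul_le_mul_of_nonneg_left (by linarith) hq.le
    calc -(ε / R * ‖u‖) = ‖u‖ / R * (-ε) := by ring
      _ ≤ _ := this
  · rw [e1]
    have : ‖u‖ / R * (R / ‖u‖ * (A - B) u) ≤ ‖u‖ / R * ε :=
      mul_le_mul_of_nonneg_left (by linarith) hq.le
    calc _ ≤ ‖u‖ / R * ε := this
      _ = ε / R * ‖u‖ := by ring

lemma isG_rf {P : E → ℝ} (hP : IsG P) : IsG (rf P) where
  add x y := by
    have := hP.add (-x) (-y)
    simp only [rf]
    rwa [show -(x + y) = -x + -y by abel]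
  smul c hc x := by
    have := hP.smul c hc (-x)
    simp only [rf]
    rwa [show -(c • x) = c • (-x) by simp]
  lower := by
    obtain ⟨c, hc, h⟩ := hP.lower
    exact ⟨c, hc, fun x => by simpa [rf] using h (-x)⟩
  upper := by
    obtain ⟨c, hc, h⟩ := hP.upper
    exact ⟨c, hc, fun x => by simpa [rf] using h (-x)⟩

lemma smooth_rf {P : E → ℝ} (hP : Smooth P) : Smooth (rf P) := by
  intro x hx
  have h : DifferentiableAt ℝ P (-x) := hP (-x) (neg_ne_zero.mpr hx)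
  have h2 : DifferentiableAt ℝ (fun y : E => -y) x := differentiableAt_id.neg
  exact DifferentiableAt.comp (g := P) (f := fun y : E => -y) x h h2

/-- The estimates at one scale. -/
lemma scale (P : E → ℝ)
    (hD : ∀ x : E, x ≠ 0 → (∀ y, fderiv ℝ P x y ≤ P y) ∧ fderiv ℝ P x x = P x)
    (hDQ : ∀ x : E, x ≠ 0 → (∀ y, fderiv ℝ (rf P) x y ≤ rf P y) ∧ fderiv ℝ (rf P) x x = rf P x)
    (x v w : E) (hx : x ≠ 0) (hv : ‖v‖ = 1) (ρ : ℝ) (hρ0 : 0 < ρ) (hρ : ρ ≤ 1 / 2)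
    (hρw : ρ * ‖w‖ ≤ |⟪w, v⟫_ℝ| / 2) (s : ℝ) (hs : s = 1 ∨ s = -1)
    (hsv : s * ⟪w, v⟫_ℝ = |⟪w, v⟫_ℝ|) (k r b : ℝ) (hk : 0 < k) (hr : 0 < r) (hb : 0 < b)
    (hrx : r < ‖x‖) (l l' : E →L[ℝ] ℝ)
    (hR : ∀ h : E, ‖h‖ ≤ r →
      |P (x + h) - P x - l h - b * abs ⟪w, h⟫_ℝ| ≤ k * r ^ 2 ∧
      |P (-x - h) - P (-x) - l' h| ≤ k * r ^ 2) :
    ‖fderiv ℝ P (x + (r / 2) • v) - (l + (b * s) • innerSL ℝ w)‖ ≤ 2 * k * r / ρ ∧
    ‖fderiv ℝ P (x - (r / 2) • v) - (l - (b * s) • innerSL ℝ w)‖ ≤ 2 * k * r / ρ ∧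
    ‖fderiv ℝ P x - l‖ ≤ b * ‖w‖ + k * r ∧
    ‖fderiv ℝ (rf P) (x + (r / 2) • v) - l'‖ ≤ 4 * k * r ∧
    ‖fderiv ℝ (rf P) (x - (r / 2) • v) - l'‖ ≤ 4 * k * r ∧
    ‖fderiv ℝ (rf P) x - l'‖ ≤ k * r := by
  have hvr : ‖(r / 2) • v‖ = r / 2 := by
    rw [norm_smul, hv, mul_one, Real.norm_eq_abs, abs_of_pos (by positivity)]
  have hp0 : x + (r / 2) • v ≠ 0 := by
    intro h
    have h1 : x = -((r / 2) • v) := eq_neg_of_add_eq_zero_left h
    have h2 : ‖x‖ = r / 2 := by rw [h1, norm_neg, hvr]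
    linarith
  have hm0 : x - (r / 2) • v ≠ 0 := by
    intro h
    have h1 : x = (r / 2) • v := sub_eq_zero.mp h
    have h2 : ‖x‖ = r / 2 := by rw [h1, hvr]
    linarith
  have hss : s * s = 1 := by
    rcases hs with h | h <;> rw [h] <;> norm_num
  have habs : |s| = 1 := by
    rcases hs with h | h <;> rw [h] <;> norm_num
  -- the absolute value near `± (r / 2) v`
  have hin : ∀ c : E, ‖c‖ ≤ ρ * r → |⟪w, c⟫_ℝ| ≤ r / 2 * |⟪w, v⟫_ℝ| := by
    intro c hc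
    calc |⟪w, c⟫_ℝ| ≤ ‖w‖ * ‖c‖ := abs_real_inner_le_norm w c
      _ ≤ ‖w‖ * (ρ * r) := mul_le_mul_of_nonneg_left hc (norm_nonneg w)
      _ = (ρ * ‖w‖) * r := by ring
      _ ≤ (|⟪w, v⟫_ℝ| / 2) * r := mul_le_mul_of_nonneg_right hρw hr.le
      _ = r / 2 * |⟪w, v⟫_ℝ| := by ring
  have habp : ∀ c : E, ‖c‖ ≤ ρ * r →
      |⟪w, (r / 2) • v + c⟫_ℝ| = r / 2 * |⟪w, v⟫_ℝ| + s * ⟪w, c⟫_ℝ := by
    intro c hc
    have h1 := hin c hc
    have h2 : |s * ⟪w, c⟫_ℝ| = |⟪w, c⟫_ℝ| := by rw [abs_mul, habs, one_mul]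
    have h3 := abs_le.mp (h2.trans_le h1)
    have h4 : |⟪w, (r / 2) • v + c⟫_ℝ| = |s * ⟪w, (r / 2) • v + c⟫_ℝ| := by
      rw [abs_mul, habs, one_mul]
    rw [h4, inner_add_right, real_inner_smul_right, mul_add,
      show s * (r / 2 * ⟪w, v⟫_ℝ) = r / 2 * (s * ⟪w, v⟫_ℝ) by ring, hsv]
    exact abs_of_nonneg (by linarith)
  have habm : ∀ c : E, ‖c‖ ≤ ρ * r →
      |⟪w, -((r / 2) • v) + c⟫_ℝ| = r / 2 * |⟪w, v⟫_ℝ| - s * ⟪w, c⟫_ℝ := by
    intro c hc
    have h1 := hin c hc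
    have h2 : |s * ⟪w, c⟫_ℝ| = |⟪w, c⟫_ℝ| := by rw [abs_mul, habs, one_mul]
    have h3 := abs_le.mp (h2.trans_le h1)
    have h4 : |⟪w, -((r / 2) • v) + c⟫_ℝ| = |s * ⟪w, -((r / 2) • v) + c⟫_ℝ| := by
      rw [abs_mul, habs, one_mul]
    rw [h4, inner_add_right, inner_neg_right, real_inner_smul_right, mul_add,
      show s * -(r / 2 * ⟪w, v⟫_ℝ) = -(r / 2 * (s * ⟪w, v⟫_ℝ)) by ring, hsv,
      abs_of_nonpos (by linarith)]
    ring
  have hρr : ρ * r ≤ r / 2 := by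
    calc ρ * r ≤ 1 / 2 * r := mul_le_mul_of_nonneg_right hρ hr.le
      _ = r / 2 := by ring
  have hρr0 : 0 < ρ * r := by positivity
  have he : 2 * k * r / ρ = 2 * k * r ^ 2 / (ρ * r) := by
    field_simp
  have he4 : 4 * k * r = 2 * k * r ^ 2 / (r / 2) := by
    field_simp
    ring
  refine ⟨?_, ?_, ?_, ?_, ?_, ?_⟩
  · rw [he]
    refine core P _ _ (x + (r / 2) • v) (hD _ hp0).1 (hD _ hp0).2 (ρ * r) _ hρr0 ?_
    intro c hc
    have hn1 : ‖(r / 2) • v‖ ≤ r := by rw [hvr]; linarith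
    have hn2 : ‖(r / 2) • v + c‖ ≤ r := by
      refine (norm_add_le _ _).trans ?_
      rw [hvr]; linarith
    have g1 := abs_le.mp (hR _ hn1).1
    have g2 := abs_le.mp (hR _ hn2).1
    have a1 := habp 0 (by simp; exact hρr0.le)
    have a2 := habp c hc
    rw [add_zero, inner_zero_right, mul_zero, add_zero] at a1
    rw [a1] at g1
    rw [a2, map_add, ← add_assoc] at g2
    rw [add_apply, smul_apply, innerSL_apply_apply, smul_eq_mul]
    have e : b * (r / 2 * |⟪w, v⟫_ℝ| + s * ⟪w, c⟫_ℝ) =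
      b * (r / 2 * |⟪w, v⟫_ℝ|) + b * s * ⟪w, c⟫_ℝ := by ring
    rw [e] at g2
    linarith [g1.1, g2.2]
  · rw [he]
    refine core P _ _ (x - (r / 2) • v) (hD _ hm0).1 (hD _ hm0).2 (ρ * r) _ hρr0 ?_
    intro c hc
    have hn1 : ‖-((r / 2) • v)‖ ≤ r := by rw [norm_neg, hvr]; linarith
    have hn2 : ‖-((r / 2) • v) + c‖ ≤ r := by
      refine (norm_add_le _ _).trans ?_
      rw [norm_neg, hvr]; linarith
    have g1 := abs_le.mp (hR _ hn1).1
    have g2 := abs_le.mp (hR _ hn2).1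
    have a1 := habm 0 (by simp; exact hρr0.le)
    have a2 := habm c hc
    rw [add_zero, inner_zero_right, mul_zero, sub_zero] at a1
    rw [a1, ← sub_eq_add_neg] at g1
    rw [a2, map_add, ← add_assoc, ← sub_eq_add_neg] at g2
    rw [sub_apply, smul_apply, innerSL_apply_apply, smul_eq_mul]
    have e : b * (r / 2 * |⟪w, v⟫_ℝ| - s * ⟪w, c⟫_ℝ) =
      b * (r / 2 * |⟪w, v⟫_ℝ|) - b * s * ⟪w, c⟫_ℝ := by ring
    rw [e] at g2
    linarith [g1.1, g2.2]
  · have he1 : b * ‖w‖ + k * r = (b * ‖w‖ * r + k * r ^ 2) / r := by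
      field_simp
    rw [he1]
    refine core P _ _ x (hD _ hx).1 (hD _ hx).2 r _ hr ?_
    intro c hc
    have g := abs_le.mp (hR _ hc).1
    have h1 : |⟪w, c⟫_ℝ| ≤ ‖w‖ * r :=
      (abs_real_inner_le_norm w c).trans (mul_le_mul_of_nonneg_left hc (norm_nonneg w))
    have h2 : b * |⟪w, c⟫_ℝ| ≤ b * (‖w‖ * r) := mul_le_mul_of_nonneg_left h1 hb.le
    have h3 : b * (‖w‖ * r) = b * ‖w‖ * r := by ring
    linarith [g.2]
  · rw [he4]
    refine core (rf P) _ _ (x + (r / 2) • v) (hDQ _ hp0).1 (hDQ _ hp0).2 (r / 2) _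
      (by positivity) ?_
    intro c hc
    have hn1 : ‖(r / 2) • v‖ ≤ r := by rw [hvr]; linarith
    have hn2 : ‖(r / 2) • v + c‖ ≤ r := by
      refine (norm_add_le _ _).trans ?_
      rw [hvr]; linarith
    have g1 := abs_le.mp (hR _ hn1).2
    have g2 := abs_le.mp (hR _ hn2).2
    rw [map_add] at g2
    have e1 : rf P (x + (r / 2) • v + c) = P (-x - ((r / 2) • v + c)) := by
      simp only [rf]; congr 1; abel
    have e2 : rf P (x + (r / 2) • v) = P (-x - (r / 2) • v) := by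
      simp only [rf]; congr 1; abel
    rw [e1, e2]
    linarith [g1.1, g2.2]
  · rw [he4]
    refine core (rf P) _ _ (x - (r / 2) • v) (hDQ _ hm0).1 (hDQ _ hm0).2 (r / 2) _
      (by positivity) ?_
    intro c hc
    have hn1 : ‖-((r / 2) • v)‖ ≤ r := by rw [norm_neg, hvr]; linarith
    have hn2 : ‖-((r / 2) • v) + c‖ ≤ r := by
      refine (norm_add_le _ _).trans ?_
      rw [norm_neg, hvr]; linarith
    have g1 := abs_le.mp (hR _ hn1).2
    have g2 := abs_le.mp (hR _ hn2).2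
    rw [map_add] at g2
    have e1 : rf P (x - (r / 2) • v + c) = P (-x - (-((r / 2) • v) + c)) := by
      simp only [rf]; congr 1; abel
    have e2 : rf P (x - (r / 2) • v) = P (-x - -((r / 2) • v)) := by
      simp only [rf]; congr 1; abel
    rw [e1, e2]
    linarith [g1.1, g2.2]
  · have he1 : k * r = (k * r ^ 2) / r := by
      field_simp
    rw [he1]
    refine core (rf P) _ _ x (hDQ _ hx).1 (hDQ _ hx).2 r _ hr ?_
    intro c hc
    have g := abs_le.mp (hR _ hc).2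
    have e1 : rf P (x + c) = P (-x - c) := by
      simp only [rf]; congr 1; abel
    have e2 : rf P x = P (-x) := rfl
    rw [e1, e2]
    linarith [g.2]

end

/-- Module RK. -/
theorem rk : DVStatement → RKStatement := by
  intro hDV n P hP hS x v w hx hv hw hR
  have hD : ∀ x, x ≠ 0 → (∀ y, fderiv ℝ P x y ≤ P y) ∧ fderiv ℝ P x x = P x := fun x hx =>
    ⟨(hDV.2.1 n P hP hS x hx).1, (hDV.2.1 n P hP hS x hx).2.1⟩
  have hDQ : ∀ x, x ≠ 0 → (∀ y, fderiv ℝ (rf P) x y ≤ rf P y) ∧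
      fderiv ℝ (rf P) x x = rf P x := fun x hx =>
    ⟨(hDV.2.1 n (rf P) (isG_rf hP) (smooth_rf hS) x hx).1,
      (hDV.2.1 n (rf P) (isG_rf hP) (smooth_rf hS) x hx).2.1⟩
  -- the radius `ρ`
  obtain ⟨ρ, hρ0, hρ, hρw⟩ : ∃ ρ : ℝ, 0 < ρ ∧ ρ ≤ 1 / 2 ∧ ρ * ‖w‖ ≤ |⟪w, v⟫_ℝ| / 2 := by
    rcases hw with h | h
    · exact ⟨1 / 2, by norm_num, le_refl _, by simp [h]⟩
    · have hw0 : 0 < ‖w‖ := norm_pos_iff.mpr (by rintro rfl; simp at h)
      have h' : 0 < |⟪w, v⟫_ℝ| := abs_pos.mpr h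
      refine ⟨min (1 / 2) (|⟪w, v⟫_ℝ| / (2 * ‖w‖)), lt_min (by norm_num) (by positivity),
        min_le_left _ _, ?_⟩
      calc min (1 / 2) (|⟪w, v⟫_ℝ| / (2 * ‖w‖)) * ‖w‖
          ≤ |⟪w, v⟫_ℝ| / (2 * ‖w‖) * ‖w‖ :=
            mul_le_mul_of_nonneg_right (min_le_right _ _) hw0.le
        _ = |⟪w, v⟫_ℝ| / 2 := by field_simp
  obtain ⟨s, hs, hsv⟩ : ∃ s : ℝ, (s = 1 ∨ s = -1) ∧ s * ⟪w, v⟫_ℝ = |⟪w, v⟫_ℝ| := by
    rcases le_total 0 ⟪w, v⟫_ℝ with h | h
    · exact ⟨1, Or.inl rfl, by rw [one_mul, abs_of_nonneg h]⟩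
    · exact ⟨-1, Or.inr rfl, by rw [abs_of_nonpos h]; ring⟩
  have habs : |s| = 1 := by
    rcases hs with h | h <;> rw [h] <;> norm_num
  have hk : ∀ m : ℕ, (0 : ℝ) < 1 / ((m : ℝ) + 1) := fun m => by positivity
  choose r b hr hb hrb hbk l l' hll using fun m : ℕ => hR (1 / ((m : ℝ) + 1)) (hk m)
  have hk0 : Tendsto (fun m : ℕ => 1 / ((m : ℝ) + 1)) atTop (𝓝 0) :=
    tendsto_one_div_add_atTop_nhds_zero_nat
  have hb0 : Tendsto b atTop (𝓝 0) :=
    squeeze_zero (fun m => (hb m).le) hbk hk0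
  have hk1 : ∀ m : ℕ, 1 / ((m : ℝ) + 1) ≤ 1 := by
    intro m
    rw [div_le_one (by positivity)]
    have : (0 : ℝ) ≤ m := Nat.cast_nonneg m
    linarith
  have hrb' : ∀ m, r m ≤ b m := fun m =>
    (hrb m).trans (by
      calc 1 / ((m : ℝ) + 1) * b m ≤ 1 * b m := mul_le_mul_of_nonneg_right (hk1 m) (hb m).le
        _ = b m := one_mul _)
  have hr0 : Tendsto r atTop (𝓝 0) := squeeze_zero (fun m => (hr m).le) hrb' hb0
  have hq0 : Tendsto (fun m => r m / b m) atTop (𝓝 0) := by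
    refine squeeze_zero (fun m => by have := hr m; have := hb m; positivity) ?_ hk0
    intro m
    rw [div_le_iff₀ (hb m)]
    exact hrb m
  have hev : ∀ᶠ m in atTop, r m < ‖x‖ :=
    hr0.eventually_lt_const (norm_pos_iff.mpr hx)
  have hsc := fun (m : ℕ) (hm : r m < ‖x‖) => scale P hD hDQ x v w hx hv ρ hρ0 hρ hρw s hs hsv
    (1 / ((m : ℝ) + 1)) (r m) (b m) (hk m) (hr m) (hb m) hm (l m) (l' m) (hll m)
  refine ⟨r, b, 2 / ρ + 2 * ‖w‖ + 6, hr, hb, hr0, hb0, hq0, ?_, ?_, ?_⟩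
  · -- derivative across the ridge
    have hlim : Tendsto (fun m : ℕ => 4 / ρ * (1 / ((m : ℝ) + 1))) atTop (𝓝 0) := by
      simpa using hk0.const_mul (4 / ρ)
    refine squeeze_zero_norm' ?_ hlim
    filter_upwards [hev] with m hm
    obtain ⟨h1, h2, -⟩ := hsc m hm
    have t1 := (ContinuousLinearMap.le_opNorm (fderiv ℝ P (x + (r m / 2) • v) -
      (l m + (b m * s) • innerSL ℝ w)) v).trans
      (mul_le_mul_of_nonneg_right h1 (norm_nonneg v))
    have t2 := (ContinuousLinearMap.le_opNorm (fderiv ℝ P (x - (r m / 2) • v) -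
      (l m - (b m * s) • innerSL ℝ w)) v).trans
      (mul_le_mul_of_nonneg_right h2 (norm_nonneg v))
    rw [hv, mul_one, Real.norm_eq_abs] at t1 t2
    rw [sub_apply, add_apply, smul_apply, innerSL_apply_apply, smul_eq_mul, mul_assoc, hsv] at t1
    rw [sub_apply, sub_apply, smul_apply, innerSL_apply_apply, smul_eq_mul, mul_assoc, hsv] at t2
    have t1' := abs_le.mp t1
    have t2' := abs_le.mp t2
    rw [Real.norm_eq_abs, abs_div, abs_of_pos (hr m), div_le_iff₀ (hr m)]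
    have e : 4 / ρ * (1 / ((m : ℝ) + 1)) * r m =
        2 * (1 / ((m : ℝ) + 1)) * r m / ρ + 2 * (1 / ((m : ℝ) + 1)) * r m / ρ := by ring
    rw [e, abs_le]
    constructor <;> linarith [t1'.1, t1'.2, t2'.1, t2'.2]
  · have hlim : Tendsto (fun m : ℕ => 8 * (1 / ((m : ℝ) + 1))) atTop (𝓝 0) := by
      simpa using hk0.const_mul 8
    refine squeeze_zero_norm' ?_ hlim
    filter_upwards [hev] with m hm
    obtain ⟨-, -, -, h1, h2, -⟩ := hsc m hm
    have t1 := (ContinuousLinearMap.le_opNorm (fderiv ℝ (rf P) (x + (r m / 2) • v) - l' m)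
      v).trans (mul_le_mul_of_nonneg_right h1 (norm_nonneg v))
    have t2 := (ContinuousLinearMap.le_opNorm (fderiv ℝ (rf P) (x - (r m / 2) • v) - l' m)
      v).trans (mul_le_mul_of_nonneg_right h2 (norm_nonneg v))
    rw [hv, mul_one, Real.norm_eq_abs, sub_apply] at t1 t2
    have t1' := abs_le.mp t1
    have t2' := abs_le.mp t2
    rw [Real.norm_eq_abs, abs_div, abs_of_pos (hr m), div_le_iff₀ (hr m)]
    have e : 8 * (1 / ((m : ℝ) + 1)) * r m =
        4 * (1 / ((m : ℝ) + 1)) * r m + 4 * (1 / ((m : ℝ) + 1)) * r m := by ring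
    rw [e, abs_le]
    constructor <;> linarith [t1'.1, t1'.2, t2'.1, t2'.2]
  · filter_upwards [hev] with m hm
    obtain ⟨h1, h2, h3, h4, h5, h6⟩ := hsc m hm
    have hkr : 1 / ((m : ℝ) + 1) * r m ≤ b m := by
      calc 1 / ((m : ℝ) + 1) * r m ≤ 1 * r m := mul_le_mul_of_nonneg_right (hk1 m) (hr m).le
        _ = r m := one_mul _
        _ ≤ b m := hrb' m
    have hkr2 : 2 * (1 / ((m : ℝ) + 1)) * r m / ρ ≤ 2 / ρ * b m := by
      calc 2 * (1 / ((m : ℝ) + 1)) * r m / ρ = 2 / ρ * (1 / ((m : ℝ) + 1) * r m) := by ring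
        _ ≤ 2 / ρ * b m := mul_le_mul_of_nonneg_left hkr (by positivity)
    have hin : ‖(b m * s) • innerSL ℝ w‖ = b m * ‖w‖ := by
      rw [norm_smul, innerSL_apply_norm, Real.norm_eq_abs, abs_mul, habs, mul_one,
        abs_of_pos (hb m)]
    have hw0 : 0 ≤ b m * ‖w‖ := mul_nonneg (hb m).le (norm_nonneg w)
    have hρb : 0 ≤ 2 / ρ * b m := mul_nonneg (by positivity) (hb m).le
    have hexp : (2 / ρ + 2 * ‖w‖ + 6) * b m = 2 / ρ * b m + 2 * (b m * ‖w‖) + 6 * b m := by ring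
    have hbm := (hb m).le
    rw [hexp]
    refine ⟨?_, ?_, ?_, ?_⟩
    · have e : fderiv ℝ P (x + (r m / 2) • v) - fderiv ℝ P x =
          (fderiv ℝ P (x + (r m / 2) • v) - (l m + (b m * s) • innerSL ℝ w)) -
            (fderiv ℝ P x - l m) + (b m * s) • innerSL ℝ w := by abel
      rw [e]
      refine (norm_add_le _ _).trans ?_
      rw [hin]
      have := norm_sub_le (fderiv ℝ P (x + (r m / 2) • v) - (l m + (b m * s) • innerSL ℝ w))
        (fderiv ℝ P x - l m)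
      linarith
    · have e : fderiv ℝ P (x - (r m / 2) • v) - fderiv ℝ P x =
          (fderiv ℝ P (x - (r m / 2) • v) - (l m - (b m * s) • innerSL ℝ w)) -
            (fderiv ℝ P x - l m) - (b m * s) • innerSL ℝ w := by abel
      rw [e]
      refine (norm_sub_le _ _).trans ?_
      rw [hin]
      have := norm_sub_le (fderiv ℝ P (x - (r m / 2) • v) - (l m - (b m * s) • innerSL ℝ w))
        (fderiv ℝ P x - l m)
      linarith
    · have e : fderiv ℝ (rf P) (x + (r m / 2) • v) - fderiv ℝ (rf P) x =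
          (fderiv ℝ (rf P) (x + (r m / 2) • v) - l' m) - (fderiv ℝ (rf P) x - l' m) := by abel
      rw [e]
      refine (norm_sub_le _ _).trans ?_
      linarith
    · have e : fderiv ℝ (rf P) (x - (r m / 2) • v) - fderiv ℝ (rf P) x =
          (fderiv ℝ (rf P) (x - (r m / 2) • v) - l' m) - (fderiv ℝ (rf P) x - l' m) := by abel
      rw [e]
      refine (norm_sub_le _ _).trans ?_
      linarith

end Pool.Agent.Lib.MP_0b6b0e_gt.ZB.H14
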